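import Pool.Agent.Q99.SML.Defs
import Pool.Agent.W705.JV.Defs

/-!
# Powers of braid words and virtual braid words in a box of a diagram on a surface

`virt O i` (starting library `Pool.Agent.W705.JV.Defs`) draws a virtual crossing of the strands at the
places `i` and `i + 1` in the box of `O`.
-/

set_option autoImplicit false

namespace Q99.SML3

open Pool.Agent.H891R2.Jones Pool.Agent.W639.RB Pool.Agent.W705.JV Q99.SML

/-- a word in the letters `σ_i^{±1}` (`inl (true, i)`, `inl (false, i)`) and in the virtual crossings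
`v_i` (`inr i`) -/
abbrev VWord : Type := List ((Bool × ℕ) ⊕ ℕ)

/-- draw one letter in the box (letters with `i + 1 ≥ m` are ignored) -/
def pushG {m : ℕ} (O : Outer m) : (Bool × ℕ) ⊕ ℕ → Outer m
  | .inl x => O.push x.1 x.2
  | .inr i => if h : i + 1 < m then virt O ⟨i, by omega⟩ else O

/-- draw a word in the box -/
def drawG {m : ℕ} (O : Outer m) (w : VWord) : Outer m := w.foldl pushG O

/-- the product `w_0^{n_0} u_0 w_1^{n_1} u_1 ⋯ w_{k-1}^{n_{k-1}} u_{k-1}` is drawn in the box of `O`; the
`w_j` are words in the `σ_i^{±1}`, the `u_j` may contain virtual crossings -/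
def familyV {m : ℕ} : {k : ℕ} → Outer m → (Fin k → Word) → (Fin k → VWord) → (Fin k → ℤ) → Outer m
  | 0, O, _, _, _ => O
  | _ + 1, O, w, u, n =>
    familyV (drawG (power O (w 0) (n 0)) (u 0)) (Fin.tail w) (Fin.tail u) (Fin.tail n)

end Q99.SML3
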