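import Pool.Agent.Q99.SML3.Virt

/-!
# Powers of classical braids between virtual braids
-/

set_option autoImplicit false

open Finset LaurentPolynomial Pool.Agent.H891R2.Jones Pool.Agent.W639.RB Polynomial

namespace Q99.SML3

open Q99.SML Q99.SML2 Pool.Agent.W705.JV

/-- the formula along a line -/
theorem value {m : ℕ} (hm : 0 < m) {K : Type*} [CommRing K] (a : Kˣ) (O : Outer m) (w : Word)
    (x : VWord) (P : ℕ) (hP : wperm m w ^ P = 1) (s : ℤ) :
    ∃ (e : ℤ) (l : (Mt m → K) →ₗ[K] K) (v : Mt m → K),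
      Even (e - ((idx m w).length * P : ℕ)) ∧ ∀ t : ℤ,
        spec a (drawG (power O w (s + P * t)) x).close.fPoly =
          l (((sU (eta a ^ e) * WUm a w ^ P) ^ t : (Module.End K (Mt m → K))ˣ).1 v) := by
  obtain ⟨e, he, h1⟩ := QU_trans w P hP ((QU m w ^ s) (stt O))
  set s1 := (QU m w ^ s) (stt O) with hs1
  refine ⟨e, ((eta a ^ (QG m x s1).2 : Kˣ) : K) • (LinearMap.proj (strt m) ∘ₗ XU a x),
    (WUm a w ^ s : (Module.End K (Mt m → K))ˣ).1 (gm a O), he, fun t => ?_⟩
  rw [spec_fPoly, close_writhe, close_bracket hm]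
  have h2 : owr (drawG (power O w (s + P * t)) x) = (QG m x s1).2 + t * e := by
    have h3 : (stt (drawG (power O w (s + P * t)) x)).2 = (QG m x s1).2 + t * e := by
      rw [stt_drawG, stt_power, add_comm s, zpow_add, zpow_mul, zpow_natCast,
        Equiv.Perm.mul_apply, ← hs1, h1 t, QG_shift]
    exact h3
  have h4 : spec a (fill (drawG (power O w (s + P * t)) x) (strt m)).bracket =
      XU a x (((WUm a w ^ P) ^ t :
        (Module.End K (Mt m → K))ˣ).1 ((WUm a w ^ s : (Module.End K (Mt m → K))ˣ).1 (gm a O)))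
          (strt m) := by
    have h5 : spec a (fill (drawG (power O w (s + P * t)) x) (strt m)).bracket =
      gm a (drawG (power O w (s + P * t)) x) (strt m) := rfl
    rw [h5, gm_drawG hm, gm_power hm, add_comm s, zpow_add, zpow_mul, zpow_natCast, Units.val_mul]
    rfl
  have h6 : ((sU (eta a ^ e) * WUm a w ^ P) ^ t : (Module.End K (Mt m → K))ˣ) =
      sU (eta a ^ (t * e)) * (WUm a w ^ P) ^ t := by
    rw [(sU_comm _ _).mul_zpow, sU_zpow, ← zpow_mul, mul_comm e t]
  rw [h2, h4, h6, Units.val_mul, Module.End.mul_apply, sU_apply, LinearMap.smul_apply,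
    LinearMap.comp_apply, map_smul, map_smul, smul_eq_mul, smul_eq_mul, ← mul_assoc, zpow_add,
    Units.val_mul]
  rfl

/-- the operator of a line is trivial modulo `p` -/
theorem trivial_mod {m : ℕ} {p : ℕ} [Fact p.Prime] (a : ℤ_[p]ˣ)
    (hmod : PadicInt.toZMod (a : ℤ_[p]) = 1) (w : Word) (P : ℕ) (hP : wperm m w ^ P = 1) (e : ℤ)
    (he : Even (e - ((idx m w).length * P : ℕ))) :
    ∃ B : Module.End ℤ_[p] (Mt m → ℤ_[p]),
      (sU (eta a ^ e) * WUm a w ^ P : (Module.End ℤ_[p] (Mt m → ℤ_[p]))ˣ).1 =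
        1 + (p : ℤ_[p]) • B := by
  set N := (sU (eta a ^ e) * WUm a w ^ P : (Module.End ℤ_[p] (Mt m → ℤ_[p]))ˣ).1 with hN
  have ha1 : Units.map ((PadicInt.toZMod (p := p) : ℤ_[p] →+* ZMod p) : ℤ_[p] →* ZMod p) a = 1 := by
    apply Units.ext
    exact hmod
  have key : ∀ (v : Mt m → ℤ_[p]) (f : Mt m), ∃ y, N v f - v f = (p : ℤ_[p]) * y := by
    intro v f
    have h1 : PadicInt.toZMod (N v f - v f) = 0 := by
      have h2 := congrFun (WUm_pow_map (m := m) (PadicInt.toZMod (p := p)) a w P v) f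
      rw [ha1, WUm_pow_one w P hP, mom_pow_apply, Pi.smul_apply, smul_eq_mul] at h2
      have h3 : N v f = ((eta a ^ e : ℤ_[p]ˣ) : ℤ_[p]) *
          (WUm a w ^ P : (Module.End ℤ_[p] (Mt m → ℤ_[p]))ˣ).1 v f := rfl
      have h4 : PadicInt.toZMod ((eta a ^ e : ℤ_[p]ˣ) : ℤ_[p]) = (((-1) ^ e : (ZMod p)ˣ) : ZMod p) := by
        have h5 : Units.map ((PadicInt.toZMod (p := p) : ℤ_[p] →+* ZMod p) : ℤ_[p] →* ZMod p)
            (eta a ^ e) = (-1) ^ e := by
          rw [map_zpow, eta_map, ha1, eta_one]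
        exact congrArg Units.val h5
      rw [map_sub, h3, map_mul, h4, h2, ← mul_assoc]
      have h6 : (((-1) ^ e : (ZMod p)ˣ) : ZMod p) * (-1) ^ ((idx m w).length * P) = 1 := by
        have h7 : ((-1 : (ZMod p)ˣ) ^ e) * (-1) ^ (((idx m w).length * P : ℕ) : ℤ) = 1 := by
          rw [← zpow_add]
          apply Even.neg_one_zpow
          have : e + (((idx m w).length * P : ℕ) : ℤ) =
            (e - (((idx m w).length * P : ℕ) : ℤ)) + 2 * (((idx m w).length * P : ℕ) : ℤ) := by ring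
          rw [this]
          exact he.add (even_two_mul _)
        have h8 := congrArg Units.val h7
        rw [zpow_natCast, Units.val_mul, Units.val_pow_eq_pow_val, Units.val_neg, Units.val_one]
          at h8
        exact h8
      rw [h6, one_mul, sub_self]
    rw [← RingHom.mem_ker, PadicInt.ker_toZMod, PadicInt.maximalIdeal_eq_span_p,
      Ideal.mem_span_singleton] at h1
    exact h1
  choose b hb using key
  have hb' : ∀ v f, (p : ℤ_[p]) * b v f = N v f - v f := fun v f => (hb v f).symm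
  refine ⟨{ toFun := b, map_add' := ?_, map_smul' := ?_ }, ?_⟩
  · intro v v'
    funext f
    apply mul_left_cancel₀ (p_ne (p := p))
    rw [Pi.add_apply, mul_add, hb', hb', hb', map_add, Pi.add_apply, Pi.add_apply]
    ring
  · intro c v
    funext f
    apply mul_left_cancel₀ (p_ne (p := p))
    rw [RingHom.id_apply, Pi.smul_apply, smul_eq_mul, mul_left_comm, hb', hb', map_smul,
      Pi.smul_apply, Pi.smul_apply, smul_eq_mul, smul_eq_mul]
    ring
  · apply LinearMap.ext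
    intro v
    funext f
    show N v f = v f + (p : ℤ_[p]) * b v f
    rw [hb']
    ring

theorem ann {m : ℕ} {p : ℕ} [Fact p.Prime] (hp : 2 < p) (a : ℤ_[p]ˣ)
    (hmod : PadicInt.toZMod (a : ℤ_[p]) = 1) (w : Word) (P : ℕ) (hP : wperm m w ^ P = 1) (e : ℤ)
    (he : Even (e - ((idx m w).length * P : ℕ))) :
    ∃ (B : Module.End ℤ_[p] (Mt m → ℤ_[p])) (R : ℤ_[p][X]),
      (sU (eta a ^ e) * WUm a w ^ P : (Module.End ℤ_[p] (Mt m → ℤ_[p]))ˣ).1 =
        1 + (p : ℤ_[p]) • B ∧ R.Monic ∧ R.natDegree ≤ m.choose (m / 2) ∧ aeval B R = 0 := by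
  obtain ⟨B, hB⟩ := trivial_mod (m := m) a hmod w P hP e he
  obtain ⟨B', hB'⟩ := Q99.SML2.trivial_mod (m := m) a hmod w P hP e he
  have hcell : Cellular (sU (eta a ^ e) * Q99.SML2.WU a w ^ P :
      (Module.End ℤ_[p] (NX m → ℤ_[p]))ˣ).1 := by
    show Cellular ((sU (eta a ^ e) : (Module.End ℤ_[p] (NX m → ℤ_[p]))ˣ).1 *
      (Q99.SML2.WU a w ^ P : (Module.End ℤ_[p] (NX m → ℤ_[p]))ˣ).1)
    rw [Units.val_pow_eq_pow_val]
    exact (Cellular.one.smul _).mul ((WU_cellular a w).pow P)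
  obtain ⟨R, h1, h2, h3⟩ := (hcell.div (p : ℤ_[p]) p_ne hB').ann
  refine ⟨B, R, hB, h1, h2, ?_⟩
  -- the unit `d`
  have hdu : IsUnit (dd a) := by
    by_contra hc
    have h4 : dd a ∈ RingHom.ker (PadicInt.toZMod (p := p)) := by
      rw [PadicInt.ker_toZMod, IsLocalRing.mem_maximalIdeal]
      exact hc
    rw [RingHom.mem_ker] at h4
    have h5 : PadicInt.toZMod (dd a) = -2 := by
      unfold dd
      have ha1 : Units.map ((PadicInt.toZMod (p := p) : ℤ_[p] →+* ZMod p) : ℤ_[p] →* ZMod p) a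
          = 1 := by
        apply Units.ext
        exact hmod
      have h6 : ∀ n : ℤ, PadicInt.toZMod ((a ^ n : ℤ_[p]ˣ) : ℤ_[p]) = 1 := by
        intro n
        have h7 := congrArg (fun u : (ZMod p)ˣ => (u : ZMod p)) (map_zpow (Units.map
          ((PadicInt.toZMod (p := p) : ℤ_[p] →+* ZMod p) : ℤ_[p] →* ZMod p)) a n)
        rw [ha1, one_zpow] at h7
        exact h7
      rw [map_sub, map_neg, h6, h6]
      norm_num
    rw [h5, neg_eq_zero] at h4
    have h8 : ((2 : ℕ) : ZMod p) = 0 := by exact_mod_cast h4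
    rw [ZMod.natCast_eq_zero_iff] at h8
    exact absurd (Nat.le_of_dvd (by norm_num) h8) (by omega)
  obtain ⟨d, hd⟩ := hdu
  have hPP : PP (m := m) (dd a) (sU (eta a ^ e) * WUm a w ^ P :
      (Module.End ℤ_[p] (Mt m → ℤ_[p]))ˣ).1 (sU (eta a ^ e) * Q99.SML2.WU a w ^ P :
      (Module.End ℤ_[p] (NX m → ℤ_[p]))ˣ).1 := by
    show PP (dd a) ((sU (eta a ^ e) : (Module.End ℤ_[p] (Mt m → ℤ_[p]))ˣ).1 *
      (WUm a w ^ P : (Module.End ℤ_[p] (Mt m → ℤ_[p]))ˣ).1)
      ((sU (eta a ^ e) : (Module.End ℤ_[p] (NX m → ℤ_[p]))ˣ).1 *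
      (Q99.SML2.WU a w ^ P : (Module.End ℤ_[p] (NX m → ℤ_[p]))ˣ).1)
    rw [Units.val_pow_eq_pow_val, Units.val_pow_eq_pow_val]
    exact ((PP.one _).smul _).mul ((WU_PP a w).pow P)
  have h9 := (hPP.div (p : ℤ_[p]) p_ne hB hB').poly R
  rw [h3, ← hd] at h9
  exact h9.zero d

theorem line {r k : ℕ} {m : Fin r → ℕ} (hm : ∀ i, 0 < m i) (O : ∀ i, Outer (m i))
    (w : Fin r → Fin k → Word) (u : Fin r → Fin k → VWord)
    (c : Fin r → ℤ[T;T⁻¹]) (g : ℤ[T;T⁻¹]) (P : ℕ) (n : Fin k → ℤ) (j : Fin k)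
    (hP : ∀ i, wperm (m i) (w i j) ^ P = 1) (s : ℤ) (Z : Finset ℤ)
    (hZ : ∀ z ∈ Z, ∑ i, c i * (familyV (O i) (w i) (u i)
      (Function.update n j (s + P * z))).close.fPoly = g)
    (hc : ∑ i, (m i).choose (m i / 2) + 1 ≤ Z.card) (z : ℤ) :
    ∑ i, c i * (familyV (O i) (w i) (u i) (Function.update n j (s + P * z))).close.fPoly = g := by
  classical
  obtain ⟨p, hpr, hp⟩ := Nat.exists_infinite_primes (∑ i, (m i).choose (m i / 2) + 3)
  have : Fact (Nat.Prime p) := ⟨hp⟩
  obtain ⟨a, ha, hmod⟩ := exists_embedding p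
  choose O' x hx using fun i => familyV_update (m i) k (w i) (u i) n j (O i)
  choose e l v he hval using fun i => value (hm i) a (O' i) (w i j) (x i) P (hP i) s
  let N : ∀ i, (Module.End ℤ_[p] (Mt (m i) → ℤ_[p]))ˣ := fun i =>
    sU (eta a ^ (e i)) * WUm a (w i j) ^ P
  let l' : ∀ i, (Mt (m i) → ℤ_[p]) →ₗ[ℤ_[p]] ℤ_[p] := fun i => spec a (c i) • l i
  have key : ∀ t : ℤ, usq N l' v (spec a g) t =
      spec a (∑ i, c i * (familyV (O i) (w i) (u i) (Function.update n j (s + P * t))).close.fPoly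
        - g) := by
    intro t
    unfold usq
    rw [map_sub, map_sum]
    congr 1
    refine Finset.sum_congr rfl fun i _ => ?_
    rw [map_mul, hx i, hval i t]
    rfl
  have hiff : ∀ t : ℤ, usq N l' v (spec a g) t = 0 ↔
      ∑ i, c i * (familyV (O i) (w i) (u i) (Function.update n j (s + P * t))).close.fPoly = g := by
    intro t
    rw [key, map_eq_zero_iff _ ha, sub_eq_zero]
  rw [← hiff]
  refine all_zero N l' v (spec a g) (fun i => (m i).choose (m i / 2)) (by omega) (fun i => ?_) Z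
    (fun t ht => (hiff t).2 (hZ t ht)) hc z
  exact ann (by omega) a hmod (w i j) P (hP i) (e i) (he i)

/-- the count in a residue class -/
theorem count {r k : ℕ} {m : Fin r → ℕ} (hm : ∀ i, 0 < m i) (O : ∀ i, Outer (m i))
    (w : Fin r → Fin k → Word) (u : Fin r → Fin k → VWord) (P : ℕ)
    (hP : ∀ i j, wperm (m i) (w i j) ^ P = 1)
    (s : Fin k → ℤ) (c : Fin r → ℤ[T;T⁻¹]) (g : ℤ[T;T⁻¹]) :
    (∀ q : Fin k → ℤ,
        ∑ i, c i * (familyV (O i) (w i) (u i) (s + (P : ℤ) • q)).close.fPoly = g) ∨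
      ∀ A : Fin k → Finset ℤ, {q : Fin k → ℤ | (∀ j, q j ∈ A j) ∧
          ∑ i, c i * (familyV (O i) (w i) (u i) (s + (P : ℤ) • q)).close.fPoly = g}.ncard ≤
        (∑ i, (m i).choose (m i / 2)) * ∑ j, ∏ l ∈ univ.erase j, (A l).card := by
  classical
  by_cases hall : ∀ q : Fin k → ℤ,
      ∑ i, c i * (familyV (O i) (w i) (u i) (s + (P : ℤ) • q)).close.fPoly = g
  · exact Or.inl hall
  right
  intro A
  have hf : {q : Fin k → ℤ | (∀ j, q j ∈ A j) ∧
      ∑ i, c i * (familyV (O i) (w i) (u i) (s + (P : ℤ) • q)).close.fPoly = g}.Finite := by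
    apply (Fintype.piFinset A).finite_toSet.subset
    intro n hn
    rw [Finset.mem_coe, Fintype.mem_piFinset]
    exact hn.1
  rw [Set.ncard_eq_toFinset_card _ hf, ← faces_eq]
  have h := box_count 1 one_pos (∑ i, (m i).choose (m i / 2)) k
    (fun q => ∑ i, c i * (familyV (O i) (w i) (u i) (s + (P : ℤ) • q)).close.fPoly = g)
    ?_ A hf.toFinset ?_
  · rwa [mul_one] at h
  · intro q j s0 Z hZ hc z
    have hupd : ∀ y : ℤ, s + (P : ℤ) • Function.update q j (s0 + ((1 : ℕ) : ℤ) * y) =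
        Function.update (s + (P : ℤ) • q) j ((s j + P * s0) + P * y) := by
      intro y
      funext l
      by_cases hl : l = j
      · subst hl
        rw [Pi.add_apply, Pi.smul_apply, Function.update_self, Function.update_self, smul_eq_mul,
          Nat.cast_one]
        ring
      · rw [Pi.add_apply, Pi.smul_apply, Function.update_of_ne hl, Function.update_of_ne hl,
          Pi.add_apply, Pi.smul_apply]
    have h1 := line hm O w u c g P (s + (P : ℤ) • q) j (fun i => hP i j) (s j + P * s0) Z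
      (fun y hy => by
        rw [← hupd]
        exact hZ y hy) hc z
    rw [← hupd] at h1
    exact h1
  · intro q hq
    rw [Set.Finite.mem_toFinset] at hq
    push Not at hall
    obtain ⟨q0, hq0⟩ := hall
    refine ⟨hq.1, hq.2, q0 - q, ?_⟩
    have h3 : q + ((1 : ℕ) : ℤ) • (q0 - q) = q0 := by
      rw [Nat.cast_one, one_smul]; abel
    rw [h3]
    exact hq0

end Q99.SML3
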