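import Pool.Agent.Q99.SML3.Stack
import Pool.Agent.Q99.SML3.Defs
import Pool.Agent.Q99.SML2.Main2

/-!
# The representation on all matchings, and virtual letters
-/

set_option autoImplicit false

open Finset LaurentPolynomial Pool.Agent.H891R2.Jones Pool.Agent.W639.RB

namespace Q99.SML3

open Q99.SML Q99.SML2 Pool.Agent.W705.JV

variable {m : ℕ} {K : Type*} [CommRing K]

/-- the cup-cap operators, `0` outside the range -/
noncomputable def eM (m : ℕ) (K : Type*) [CommRing K] (d : K) (i : ℕ) : Module.End K (Mt m → K) :=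
  if h : i + 1 < m then Em d i h else 0

theorem eM_pos (d : K) (i : ℕ) (h : i + 1 < m) : eM m K d i = Em d i h := dif_pos h

theorem Em_sq (d : K) (i : ℕ) (h : i + 1 < m) : Em d i h * Em d i h = d • Em (K := K) d i h := by
  apply LinearMap.ext
  intro g
  funext f
  obtain ⟨h1, h2⟩ := rel_sq i h f
  have h2' : tI i h (tI i h f) = tI i h f := h2
  have h1' : bI i h (tI i h f) = 1 := h1
  rw [Module.End.mul_apply, LinearMap.smul_apply, Pi.smul_apply, Em_apply, Em_apply, Em_apply,
    smul_eq_mul, h1', h2']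
  ring

theorem eM_TL {K : Type*} [Field K] (d : K) : IsTL m d (eM m K d) where
  sq i hi := by rw [eM_pos d i hi, Em_sq]
  up i hi := by
    rw [eM_pos d i (by omega), eM_pos d (i+1) (by omega)]
    apply LinearMap.ext
    intro g
    funext f
    obtain ⟨h1, h2⟩ := rel_up i hi f
    have h2' : tI i (by omega) (tI (i+1) hi (tI i (by omega) f)) = tI i (by omega) f :=
      h2
    rw [Module.End.mul_apply, Module.End.mul_apply, Em_apply, Em_apply, Em_apply, Em_apply, h2']
    conv_rhs => rw [← h1]
    rw [pow_add, pow_add]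
    rw [mul_assoc, mul_assoc]
  down i hi := by
    rw [eM_pos d i (by omega), eM_pos d (i+1) (by omega)]
    apply LinearMap.ext
    intro g
    funext f
    obtain ⟨h1, h2⟩ := rel_down i hi f
    have h2' : tI (i+1) hi (tI i (by omega) (tI (i+1) hi f)) = tI (i+1) hi f := h2
    rw [Module.End.mul_apply, Module.End.mul_apply, Em_apply, Em_apply, Em_apply, Em_apply, h2']
    conv_rhs => rw [← h1]
    rw [pow_add, pow_add]
    rw [mul_assoc, mul_assoc]
  far i j hj hij := by
    rw [eM_pos d i (by omega), eM_pos d j hj]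
    apply LinearMap.ext
    intro g
    funext f
    obtain ⟨h1, h2⟩ := rel_far i j hj hij f
    have h2' : tI i (by omega) (tI j hj f) = tI j hj (tI i (by omega) f) := h2
    rw [Module.End.mul_apply, Module.End.mul_apply, Em_apply, Em_apply, Em_apply, Em_apply, ← h2',
      ← mul_assoc, ← mul_assoc, ← pow_add, ← pow_add]
    congr 2
    exact h1.symm

/-- the action of a letter -/
noncomputable def Lm (a : Kˣ) (b : Bool) (i : ℕ) : Module.End K (Mt m → K) :=
  if h : i + 1 < m then ((a ^ (sgb b) : Kˣ) : K) • 1 + ((a ^ (- sgb b) : Kˣ) : K) • Em (dd a) i h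
  else 1

theorem Lm_pos (a : Kˣ) (b : Bool) (i : ℕ) (h : i + 1 < m) : Lm (m := m) a b i =
    ((a ^ (sgb b) : Kˣ) : K) • 1 + ((a ^ (- sgb b) : Kˣ) : K) • Em (dd a) i h := dif_pos h

theorem Lm_mul (a : Kˣ) (b : Bool) (i : ℕ) :
    Lm (m := m) a b i * Lm a (!b) i = 1 := by
  by_cases h : i + 1 < m
  · rw [Lm_pos a b i h, Lm_pos a (!b) i h, sgb_not, neg_neg]
    have e2 : ((a ^ (sgb b) : Kˣ) : K) * ((a ^ (- sgb b) : Kˣ) : K) = 1 := by
      rw [← Units.val_mul, ← zpow_add]
      simp
    have e3 : dd a = -(((a ^ (sgb b) : Kˣ) : K) ^ 2) - ((a ^ (- sgb b) : Kˣ) : K) ^ 2 := by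
      unfold dd
      rw [← Units.val_pow_eq_pow_val, ← Units.val_pow_eq_pow_val, ← zpow_natCast, ← zpow_natCast,
        ← zpow_mul, ← zpow_mul]
      cases b
      · simp only [sgb, Bool.false_eq_true, if_false]
        norm_num
        ring
      · simp only [sgb, if_true]
        norm_num
    have e4 := Em_sq (dd a) i h
    set P := ((a ^ (sgb b) : Kˣ) : K)
    set Q := ((a ^ (- sgb b) : Kˣ) : K)
    set E := Em (dd a) i h
    have e5 : (P • (1 : Module.End K (Mt m → K)) + Q • E) * (Q • 1 + P • E) =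
        (P * Q) • 1 + (P * P + Q * Q) • E + (P * Q) • (E * E) := by
      simp only [add_mul, mul_add, smul_mul_assoc, mul_smul_comm, one_mul, mul_one, smul_smul,
        smul_add, add_smul]
      rw [mul_comm Q P]
      abel
    rw [e5, e4, e2, one_smul, one_smul, add_assoc, ← add_smul]
    have e6 : P * P + Q * Q + dd a = 0 := by rw [e3]; ring
    rw [e6, zero_smul, add_zero]
  · unfold Lm
    rw [dif_neg h, dif_neg h, one_mul]

/-- the letters as invertible maps -/
noncomputable def LUm (a : Kˣ) (x : Bool × ℕ) : (Module.End K (Mt m → K))ˣ where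
  val := Lm a x.1 x.2
  inv := Lm a (!x.1) x.2
  val_inv := Lm_mul a x.1 x.2
  inv_val := by
    have := Lm_mul (m := m) a (!x.1) x.2
    rwa [Bool.not_not] at this

/-- the words as invertible maps -/
noncomputable def WUm (a : Kˣ) : List (Bool × ℕ) → (Module.End K (Mt m → K))ˣ
  | [] => 1
  | (x :: w) => WUm a w * LUm a x

theorem WUm_append (a : Kˣ) (u v : List (Bool × ℕ)) :
    WUm (m := m) a (u ++ v) = WUm a v * WUm a u := by
  induction u with
  | nil => simp [WUm]
  | cons x u ih => rw [List.cons_append, WUm, ih, WUm, mul_assoc]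

theorem LUm_not (a : Kˣ) (x : Bool × ℕ) : LUm (m := m) a (!x.1, x.2) = (LUm a x)⁻¹ := by
  apply Units.ext
  rfl

theorem WUm_invWord (a : Kˣ) (w : List (Bool × ℕ)) :
    WUm (m := m) a (invWord w) = (WUm a w)⁻¹ := by
  induction w with
  | nil => simp [WUm, invWord]
  | cons x w ih =>
    have h : invWord (x :: w) = invWord w ++ [(!x.1, x.2)] := by
      simp [invWord]
    rw [h, WUm_append, ih]
    simp only [WUm, one_mul, mul_inv_rev, LUm_not]

/-! ### the value `a = 1` -/

theorem Lm_one {K : Type*} [Field K] (b : Bool) (i : ℕ) (h : i + 1 < m) :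
    Lm (m := m) (1 : Kˣ) b i = sg (1 : K) (eM m K (dd (1 : Kˣ))) i := by
  rw [Lm_pos (1 : Kˣ) b i h]
  unfold sg
  rw [eM_pos _ i h]
  simp

/-- minus one -/
def mom (m : ℕ) (K : Type*) [CommRing K] : (Module.End K (Mt m → K))ˣ where
  val := -1
  inv := -1
  val_inv := by
    apply LinearMap.ext
    intro g
    exact neg_neg g
  inv_val := by
    apply LinearMap.ext
    intro g
    exact neg_neg g

theorem mom_mo : mom m K * mom m K = 1 := by
  apply Units.ext
  apply LinearMap.ext
  intro g
  exact neg_neg g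

theorem mom_inv : (mom m K)⁻¹ = mom m K := rfl

theorem mom_comm (u : (Module.End K (Mt m → K))ˣ) : mom m K * u = u * mom m K := by
  apply Units.ext
  apply LinearMap.ext
  intro g
  show -(u.1 g) = u.1 (-g)
  exact (map_neg _ _).symm

theorem mom2 (u v : (Module.End K (Mt m → K))ˣ) : (mom m K * u) * (mom m K * v) = u * v := by
  rw [mom_comm u, mul_assoc, ← mul_assoc (mom m K), mom_mo, one_mul]

theorem mom_pow_apply (n : ℕ) (v : Mt m → K) : (mom m K ^ n).1 v = (-1 : K) ^ n • v := by
  induction n with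
  | zero => rw [pow_zero, pow_zero, one_smul]; rfl
  | succ n ih =>
    rw [pow_succ', Units.val_mul, Module.End.mul_apply, ih]
    show -((-1 : K) ^ n • v) = _
    rw [pow_succ', neg_one_mul, neg_smul]

/-- at `a = 1` the negatives of the letters are involutions satisfying the braid relations -/
theorem cox_LUm {K : Type*} [Field K] :
    Cox (m - 1) (fun i => mom m K * LUm (m := m) (1 : Kˣ) (true, i)) := by
  have hA : (1 : K) ≠ 0 := one_ne_zero
  have hd : dd (1 : Kˣ) = -(1 : K) ^ 2 - (1 : K)⁻¹ ^ 2 := by simp [dd]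
  have hTL := eM_TL (m := m) (dd (1 : Kˣ))
  refine ⟨fun i hi => ?_, fun i hi => ?_, fun i j hj hij => ?_⟩
  · rw [mom2]
    apply Units.ext
    have h1 : Lm (m := m) (1 : Kˣ) true i = Lm (1 : Kˣ) (!true) i := by
      rw [Lm_one true i (by omega), Lm_one (!true) i (by omega)]
    show Lm (m := m) (1 : Kˣ) true i * Lm (1 : Kˣ) true i = 1
    conv_lhs => rw [h1]
    have := Lm_mul (m := m) (1 : Kˣ) (!true) i
    rwa [Bool.not_not, h1] at this
  · rw [mom2, mom2, ← mul_assoc, ← mul_assoc, ← mom_comm, ← mom_comm, mul_assoc (mom m K),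
      mul_assoc (mom m K)]
    congr 1
    apply Units.ext
    show Lm (m := m) (1 : Kˣ) true i * Lm (1 : Kˣ) true (i+1) * Lm (1 : Kˣ) true i =
      Lm (m := m) (1 : Kˣ) true (i+1) * Lm (1 : Kˣ) true i * Lm (1 : Kˣ) true (i+1)
    rw [Lm_one true i (by omega), Lm_one true (i+1) (by omega)]
    exact braid hA hd hTL i (by omega)
  · rw [mom2, mom2]
    apply Units.ext
    show Lm (m := m) (1 : Kˣ) true i * Lm (1 : Kˣ) true j =
      Lm (m := m) (1 : Kˣ) true j * Lm (1 : Kˣ) true i
    rw [Lm_one true i (by omega), Lm_one true j (by omega)]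
    exact far_ss (A := (1 : K)) hTL i j (by omega) hij

theorem WUm_idx {K : Type*} [Field K] (w : Word) : (WUm (m := m) (1 : Kˣ) w)⁻¹ =
    mom m K ^ (idx m w).length *
      ((idx m w).map (fun i => mom m K * LUm (m := m) (1 : Kˣ) (true, i))).prod := by
  induction w with
  | nil => simp [WUm, idx]
  | cons x w ih =>
    rw [WUm, mul_inv_rev, ih]
    by_cases h : x.2 + 1 < m
    · rw [idx_cons_pos x w h, List.map_cons, List.prod_cons, List.length_cons, pow_succ]
      have h1 : (LUm (m := m) (1 : Kˣ) x)⁻¹ = LUm (1 : Kˣ) (true, x.2) := by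
        rw [← LUm_not]
        apply Units.ext
        show Lm (m := m) (1 : Kˣ) (!x.1) x.2 = Lm (1 : Kˣ) true x.2
        rw [Lm_one _ _ h, Lm_one _ _ h]
      rw [h1]
      have hc : Commute (mom m K ^ (idx m w).length) (LUm (m := m) (1 : Kˣ) (true, x.2)) :=
        Commute.pow_left (mom_comm _) _
      rw [← mul_assoc, ← hc.eq, mul_assoc, mul_assoc (mom m K ^ _) (mom m K), ← mul_assoc (mom m K),
        ← mul_assoc (mom m K), mom_mo, one_mul]
    · rw [idx_cons_neg x w h]
      have : (LUm (m := m) (1 : Kˣ) x) = 1 := by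
        apply Units.ext
        show Lm (m := m) (1 : Kˣ) x.1 x.2 = 1
        unfold Lm
        rw [dif_neg h]
      rw [this, inv_one, one_mul]

theorem WUm_pow_one {K : Type*} [Field K] (w : Word) (P : ℕ) (h : wperm m w ^ P = 1) :
    (WUm (m := m) (1 : Kˣ) w) ^ P = mom m K ^ ((idx m w).length * P) := by
  have hrep : ∀ {G : Type _} [Group G] (s : ℕ → G) (P : ℕ),
      (((List.replicate P (idx m w)).flatten).map s).prod = ((idx m w).map s).prod ^ P := by
    intro G _ s P
    induction P with
    | zero => simp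
    | succ P ih =>
      rw [List.replicate_succ, List.flatten_cons, List.map_append, List.prod_append, ih, pow_succ']
  have hrep' : ∀ (s : ℕ → Equiv.Perm ℕ) (P : ℕ),
      (((List.replicate P (idx m w)).flatten).map s).prod = ((idx m w).map s).prod ^ P := by
    intro s P
    induction P with
    | zero => simp
    | succ P ih =>
      rw [List.replicate_succ, List.flatten_cons, List.map_append, List.prod_append, ih, pow_succ']
  have h1 := cox_main (m - 1) _ (cox_LUm (m := m) (K := K)) ((List.replicate P (idx m w)).flatten)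
    (by
      intro i hi
      rw [List.mem_flatten] at hi
      obtain ⟨l, hl, hi⟩ := hi
      rw [List.mem_replicate] at hl
      rw [hl.2] at hi
      exact idx_lt m w i hi) (by rw [hrep', ← wperm_idx, h])
  rw [hrep] at h1
  have h2 := WUm_idx (m := m) (K := K) w
  set X := ((idx m w).map (fun i => mom m K * LUm (m := m) (1 : Kˣ) (true, i))).prod
  have hc : Commute (mom m K ^ (idx m w).length) X := Commute.pow_left (mom_comm X) _
  have h3 : ((WUm (m := m) (1 : Kˣ) w)⁻¹) ^ P = mom m K ^ ((idx m w).length * P) := by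
    rw [h2, hc.mul_pow, h1, mul_one, ← pow_mul]
  rw [inv_pow] at h3
  rw [← inv_inj, h3, ← inv_pow, mom_inv]

/-! ### reduction -/

theorem Lm_map {K' : Type*} [CommRing K'] (φ : K →+* K') (a : Kˣ) (b : Bool) (i : ℕ)
    (v : Mt m → K) : (fun x => φ (Lm a b i v x)) =
      Lm (Units.map (φ : K →* K') a) b i (fun x => φ (v x)) := by
  by_cases h : i + 1 < m
  · funext f
    rw [Lm_pos a b i h, Lm_pos _ b i h]
    have h1 : ∀ n : ℤ, φ ((a ^ n : Kˣ) : K) = ((Units.map (φ : K →* K') a ^ n : K'ˣ) : K') := by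
      intro n
      rw [← map_zpow]
      rfl
    have h3 : φ (dd a) = dd (Units.map (φ : K →* K') a) := by
      unfold dd
      rw [map_sub, map_neg, h1, h1]
    rw [LinearMap.add_apply, LinearMap.add_apply, LinearMap.smul_apply, LinearMap.smul_apply,
      LinearMap.smul_apply, LinearMap.smul_apply, Pi.add_apply, Pi.add_apply, Pi.smul_apply,
      Pi.smul_apply, Pi.smul_apply, Pi.smul_apply, Em_apply, Em_apply, Module.End.one_apply,
      Module.End.one_apply, smul_eq_mul, smul_eq_mul, smul_eq_mul, smul_eq_mul, map_add, map_mul,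
      map_mul, map_mul, map_pow, h1, h1, h3]
  · unfold Lm
    rw [dif_neg h, dif_neg h]
    rfl

theorem WUm_map {K' : Type*} [CommRing K'] (φ : K →+* K') (a : Kˣ) (w : Word) :
    ∀ (v : Mt m → K), (fun x => φ ((WUm a w : (Module.End K (Mt m → K))ˣ).1 v x)) =
      (WUm (Units.map (φ : K →* K') a) w : (Module.End K' (Mt m → K'))ˣ).1 (fun x => φ (v x)) := by
  induction w with
  | nil => intro v; rfl
  | cons x w ih =>
    intro v
    have h1 := ih (Lm a x.1 x.2 v)
    rw [Lm_map] at h1
    exact h1

theorem WUm_pow_map {K' : Type*} [CommRing K'] (φ : K →+* K') (a : Kˣ) (w : Word) (P : ℕ) :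
    ∀ (v : Mt m → K), (fun x => φ ((WUm a w ^ P : (Module.End K (Mt m → K))ˣ).1 v x)) =
      (WUm (Units.map (φ : K →* K') a) w ^ P : (Module.End K' (Mt m → K'))ˣ).1
        (fun x => φ (v x)) := by
  induction P with
  | zero => intro v; rfl
  | succ P ih =>
    intro v
    have h1 := ih ((WUm a w : (Module.End K (Mt m → K))ˣ).1 v)
    rw [WUm_map] at h1
    rw [pow_succ, pow_succ]
    exact h1

/-! ### the vector of an outside -/

/-- the vector of an outside -/
noncomputable def gm (a : Kˣ) (O : Outer m) : Mt m → K := fun f => spec a (fill O f).bracket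

theorem gm_push (hm : 0 < m) (a : Kˣ) (O : Outer m) (x : Bool × ℕ) :
    gm a (O.push x.1 x.2) = (LUm a x : (Module.End K (Mt m → K))ˣ).1 (gm a O) := by
  obtain ⟨b, i⟩ := x
  by_cases h : i + 1 < m
  · funext f
    show gm a (O.push b i) f = Lm a b i (gm a O) f
    rw [Lm_pos a b i h]
    unfold gm
    rw [push_fill hm O b i h, map_add, map_mul, map_mul,
        map_mul, map_pow, map_sub, map_neg, spec_T, spec_T, spec_T, spec_T]
    rfl
  · have h1 : O.push b i = O := by unfold Outer.push; rw [dif_neg h]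
    have h2 : (LUm (m := m) a (b, i)).1 = 1 := by
      show Lm a b i = 1
      unfold Lm; rw [dif_neg h]
    show gm a (O.push b i) = (LUm a (b, i)).1 (gm a O)
    rw [h1, h2]
    rfl

theorem gm_draw (hm : 0 < m) (a : Kˣ) (w : List (Bool × ℕ)) : ∀ (O : Outer m),
    gm a (draw O w) = (WUm a w : (Module.End K (Mt m → K))ˣ).1 (gm a O) := by
  induction w with
  | nil => intro O; rfl
  | cons x w ih =>
    intro O
    have h1 : draw O (x :: w) = draw (O.push x.1 x.2) w := rfl
    rw [h1, ih, gm_push hm, WUm, Units.val_mul]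
    rfl

theorem gm_iter (hm : 0 < m) (a : Kˣ) (w : List (Bool × ℕ)) : ∀ (n : ℕ) (O : Outer m),
    gm a ((fun O : Outer m => draw O w)^[n] O) =
      (WUm a w ^ n : (Module.End K (Mt m → K))ˣ).1 (gm a O) := by
  intro n
  induction n with
  | zero => intro O; rfl
  | succ n ih =>
    intro O
    rw [Function.iterate_succ_apply, ih, gm_draw hm, pow_succ, Units.val_mul]
    rfl

theorem gm_power (hm : 0 < m) (a : Kˣ) (w : List (Bool × ℕ)) (n : ℤ) (O : Outer m) :
    gm a (power O w n) = (WUm a w ^ n : (Module.End K (Mt m → K))ˣ).1 (gm a O) := by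
  rcases n with n | n
  · rw [power, gm_iter hm]
    simp
  · rw [power, gm_iter hm, WUm_invWord, zpow_negSucc, inv_pow]

end Q99.SML3
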