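import Pool.Agent.Q99.SML2.Cell

/-!
# Operators on arbitrary matchings are determined by their action on noncrossing matchings
-/

set_option autoImplicit false

open Finset Polynomial Pool.Agent.H891R2.Jones

namespace Q99.SML3

open Q99.SML

variable {m : ℕ}

/-- places of cups and caps -/
abbrev Ij (m : ℕ) : Type := {i : ℕ // i + 1 < m}

def tW : List (Ij m) → Mt m → Mt m
  | [], f => f
  | (i :: w), f => tW w (tI i.1 i.2 f)

def bW : List (Ij m) → Mt m → ℕ
  | [], _ => 0
  | (i :: w), f => bI i.1 i.2 f + bW w (tI i.1 i.2 f)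

theorem tW_append (w : List (Ij m)) (i : Ij m) : ∀ f, tW (w ++ [i]) f = tI i.1 i.2 (tW w f) := by
  induction w with
  | nil => intro f; rfl
  | cons j w ih => intro f; exact ih _

theorem bW_append (w : List (Ij m)) (i : Ij m) : ∀ f, bW (w ++ [i]) f =
    bW w f + bI i.1 i.2 (tW w f) := by
  induction w with
  | nil => intro f; simp [bW, tW]
  | cons j w ih =>
    intro f
    show bI j.1 j.2 f + bW (w ++ [i]) _ = bI j.1 j.2 f + bW w _ + bI i.1 i.2 (tW w _)
    rw [ih, add_assoc]

theorem NC_tW (w : List (Ij m)) : ∀ f, NC f → NC (tW w f) := by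
  induction w with
  | nil => intro f h; exact h
  | cons j w ih => intro f h; exact ih _ (NC_tau rfl f h)

section colours

variable {N : ℕ} {V : Type} [AddCommGroup V] [Module ℂ V]

/-- the product of the cup-cap operators -/
noncomputable def eW (N : ℕ) (V : Type) [AddCommGroup V] [Module ℂ V] :
    List (Ij m) → Module.End ℂ ((Fin m → Fin N) → V)
  | [] => 1
  | (i :: w) => eW N V w * ee m N V i.1

theorem eW_gr (w : List (Ij m)) : ∀ f : Mt m,
    eW N ((Fin m → Fin N) → ℂ) w (gr N f) = ((N : ℂ) ^ (bW w f)) • gr N (tW w f) := by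
  induction w with
  | nil => intro f; simp [eW, bW, tW]
  | cons i w ih =>
    intro f
    rw [eW, Module.End.mul_apply, ee_gr N i.1 i.2, map_smul, ih, smul_smul, ← pow_add]
    rfl

theorem ee_nat {V' : Type} [AddCommGroup V'] [Module ℂ V'] (φ : V →ₗ[ℂ] V') (i : ℕ)
    (Ψ : (Fin m → Fin N) → V) : ee m N V' i (fun x => φ (Ψ x)) = fun x => φ (ee m N V i Ψ x) := by
  unfold ee
  by_cases h : i + 1 < m
  · rw [dif_pos h, dif_pos h]
    funext x
    rw [EE_apply, EE_apply]
    split_ifs
    · rw [map_sum]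
    · rw [map_zero]
  · rw [dif_neg h, dif_neg h]
    funext x
    show (0 : V') = φ 0
    rw [map_zero]

theorem eW_nat {V' : Type} [AddCommGroup V'] [Module ℂ V'] (φ : V →ₗ[ℂ] V') (w : List (Ij m)) :
    ∀ (Ψ : (Fin m → Fin N) → V), eW N V' w (fun x => φ (Ψ x)) = fun x => φ (eW N V w Ψ x) := by
  induction w with
  | nil => intro Ψ; rfl
  | cons i w ih =>
    intro Ψ
    rw [eW, eW, Module.End.mul_apply, Module.End.mul_apply, ee_nat, ih]

/-- evaluation of kernels -/
noncomputable def ker (Ψ : (Fin m → Fin N) → V) : ((Fin m → Fin N) → ℂ) →ₗ[ℂ] V :=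
  Fintype.linearCombination ℂ Ψ

theorem ker_strt (Ψ : (Fin m → Fin N) → V) (x : Fin m → Fin N) :
    ker Ψ (gr N (strt m) x) = Ψ x := by
  classical
  unfold ker
  rw [Fintype.linearCombination_apply, Finset.sum_eq_single x]
  · have : gr N (strt m) x x = 1 := by
      apply ind_pos
      rintro (a | a) <;> rfl
    rw [this, one_smul]
  · intro y _ hy
    have : gr N (strt m) x y = 0 := by
      apply ind_neg
      intro h
      apply hy
      funext j
      exact h (.inl j)
    rw [this, zero_smul]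
  · intro h
    exact absurd (Finset.mem_univ _) h

theorem eW_ker (w : List (Ij m)) (Ψ : (Fin m → Fin N) → V) (x : Fin m → Fin N) :
    eW N V w Ψ x = ker Ψ (eW N ((Fin m → Fin N) → ℂ) w (gr N (strt m)) x) := by
  have h := congrFun (eW_nat (ker Ψ) w (gr N (strt m))) x
  have h0 : (fun x => ker Ψ (gr N (strt m) x)) = Ψ := funext (ker_strt Ψ)
  rw [h0] at h
  exact h

end colours

/-- composition of matchings -/
theorem det (w w' : List (Ij m)) (h : tW w (strt m) = tW w' (strt m)) (f : Mt m) :
    bW w f + bW w' (strt m) = bW w' f + bW w (strt m) ∧ tW w f = tW w' f := by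
  apply gr_inj
  have key : ∀ v : List (Ij m), ((2 : ℕ) : ℂ) ^ bW v f • gr 2 (tW v f) =
      ((2 : ℕ) : ℂ) ^ bW v (strt m) • (fun x => ker (gr 2 f) (gr 2 (tW v (strt m)) x)) := by
    intro v
    rw [← eW_gr]
    funext x
    rw [eW_ker, eW_gr, Pi.smul_apply, Pi.smul_apply, map_smul]
  rw [pow_add, mul_comm, mul_smul, key, pow_add, mul_comm, mul_smul, key, h, smul_smul, smul_smul,
    mul_comm]

/-! ### transfer -/

variable {K : Type*} [CommRing K]

/-- the cup-cap operator on functions on matchings -/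
noncomputable def Em (d : K) (i : ℕ) (h : i + 1 < m) : Module.End K (Mt m → K) where
  toFun g f := d ^ (bI i h f) * g (tI i h f)
  map_add' := by
    intro g g'
    funext f
    simp only [Pi.add_apply]
    ring
  map_smul' := by
    intro c g
    funext f
    simp only [Pi.smul_apply, smul_eq_mul, RingHom.id_apply]
    ring

theorem Em_apply (d : K) (i : ℕ) (h : i + 1 < m) (g : Mt m → K) (f : Mt m) :
    Em d i h g f = d ^ (bI i h f) * g (tI i h f) := rfl

/-- related functions -/
def RR (d : K) (f : Mt m) (F : Mt m → K) (G : NX m → K) : Prop :=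
  ∀ w : List (Ij m), d ^ bW w (strt m) * G ⟨tW w (strt m), NC_tW w _ NC_strt⟩ =
    d ^ bW w f * F (tW w f)

/-- related operators -/
def PP (d : K) (Z : Module.End K (Mt m → K)) (Z' : Module.End K (NX m → K)) : Prop :=
  ∀ f F G, RR d f F G → RR d f (Z F) (Z' G)

theorem PP.one (d : K) : PP (m := m) d 1 1 := fun _ _ _ h => h

theorem PP.add {d : K} {Z Y : Module.End K (Mt m → K)} {Z' Y' : Module.End K (NX m → K)}
    (h : PP d Z Z') (h' : PP d Y Y') : PP d (Z + Y) (Z' + Y') := by
  intro f F G hr w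
  have h1 := h f F G hr w
  have h2 := h' f F G hr w
  simp only [LinearMap.add_apply, Pi.add_apply, mul_add]
  rw [h1, h2]

theorem PP.smul {d : K} {Z : Module.End K (Mt m → K)} {Z' : Module.End K (NX m → K)}
    (h : PP d Z Z') (c : K) : PP d (c • Z) (c • Z') := by
  intro f F G hr w
  have h1 := h f F G hr w
  simp only [LinearMap.smul_apply, Pi.smul_apply, smul_eq_mul]
  rw [mul_left_comm, h1, mul_left_comm]

theorem PP.mul {d : K} {Z Y : Module.End K (Mt m → K)} {Z' Y' : Module.End K (NX m → K)}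
    (h : PP d Z Z') (h' : PP d Y Y') : PP d (Z * Y) (Z' * Y') :=
  fun f F G hr => h f _ _ (h' f F G hr)

theorem PP.pow {d : K} {Z : Module.End K (Mt m → K)} {Z' : Module.End K (NX m → K)}
    (h : PP d Z Z') (k : ℕ) : PP d (Z ^ k) (Z' ^ k) := by
  induction k with
  | zero => rw [pow_zero, pow_zero]; exact PP.one d
  | succ k ih => rw [pow_succ, pow_succ]; exact ih.mul h

theorem PP.poly {d : K} {Z : Module.End K (Mt m → K)} {Z' : Module.End K (NX m → K)}
    (h : PP d Z Z') (P : K[X]) : PP d (aeval Z P) (aeval Z' P) := by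
  induction P using Polynomial.induction_on' with
  | add P Q hP hQ => rw [map_add, map_add]; exact hP.add hQ
  | monomial k a =>
    rw [aeval_monomial, aeval_monomial, ← Algebra.smul_def, ← Algebra.smul_def]
    exact (h.pow k).smul a

theorem PP.Em (d : K) (i : ℕ) (h : i + 1 < m) : PP d (Em d i h) (En d i h) := by
  intro f F G hr w
  have h1 := hr (w ++ [⟨i, h⟩])
  rw [Em_apply, En_apply, ← mul_assoc, ← mul_assoc, ← pow_add, ← pow_add]
  have e1 := bW_append w ⟨i, h⟩ (strt m)
  have e2 := tW_append w ⟨i, h⟩ (strt m)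
  have e3 := bW_append w ⟨i, h⟩ f
  have e4 := tW_append w ⟨i, h⟩ f
  rw [e1, e3, e4] at h1
  refine Eq.trans ?_ h1
  congr 2
  exact Subtype.ext e2.symm

theorem PP.div [IsDomain K] {d : K} {Z : Module.End K (Mt m → K)} {Z' : Module.End K (NX m → K)}
    {B : Module.End K (Mt m → K)} {B' : Module.End K (NX m → K)} (x : K) (hx : x ≠ 0)
    (h : PP d Z Z') (hB : Z = 1 + x • B) (hB' : Z' = 1 + x • B') : PP d B B' := by
  intro f F G hr w
  have h1 := h f F G hr w
  have h2 := hr w
  rw [hB, hB'] at h1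
  simp only [LinearMap.add_apply, Module.End.one_apply, LinearMap.smul_apply, Pi.add_apply,
    Pi.smul_apply, smul_eq_mul, mul_add] at h1
  rw [h2] at h1
  have h3 := add_left_cancel h1
  apply mul_left_cancel₀ hx
  rw [mul_left_comm, h3, mul_left_comm]

theorem exists_RR (d : Kˣ) (f : Mt m) (F : Mt m → K) : ∃ G : NX m → K, RR (d : K) f F G := by
  classical
  refine ⟨fun g => if h : ∃ w, tW w (strt m) = g.1 then
    ((d ^ ((bW h.choose f : ℤ) - bW h.choose (strt m)) : Kˣ) : K) * F (tW h.choose f) else 0, ?_⟩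
  intro w
  have h : ∃ v, tW v (strt m) = (⟨tW w (strt m), NC_tW w _ NC_strt⟩ : NX m).1 := ⟨w, rfl⟩
  show _ * dite _ _ _ = _
  rw [dif_pos h]
  obtain ⟨h1, h2⟩ := det h.choose w h.choose_spec f
  rw [h2, ← mul_assoc]
  congr 1
  rw [← Units.val_pow_eq_pow_val, ← Units.val_pow_eq_pow_val, ← Units.val_mul, ← zpow_natCast,
    ← zpow_natCast, ← zpow_add]
  congr 2
  omega

/-- transfer of relations from noncrossing to arbitrary matchings -/
theorem PP.zero (d : Kˣ) {Z : Module.End K (Mt m → K)}
    (h : PP (d : K) Z (0 : Module.End K (NX m → K))) : Z = 0 := by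
  apply LinearMap.ext
  intro F
  funext f
  obtain ⟨G, hG⟩ := exists_RR d f F
  have h1 := h f F G hG []
  simp only [bW, tW, pow_zero, one_mul] at h1
  exact h1.symm

end Q99.SML3
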