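import Pool.Agent.Q99.SML3.Rep

/-!
# Virtual letters
-/

set_option autoImplicit false

open Finset LaurentPolynomial Pool.Agent.H891R2.Jones Pool.Agent.W639.RB

namespace Q99.SML3

open Q99.SML Q99.SML2 Pool.Agent.W705.JV

variable {m : ℕ} {K : Type*} [CommRing K]

/-- two lower end points change their places -/
def cj (i : ℕ) (h : i + 1 < m) (f : Mt m) : Mt m :=
  ⟨Equiv.swap (.inl ⟨i, Nat.lt_of_succ_lt h⟩) (.inl ⟨i + 1, h⟩) * f.1 *
      Equiv.swap (.inl ⟨i, Nat.lt_of_succ_lt h⟩) (.inl ⟨i + 1, h⟩), by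
    set s : Equiv.Perm (Pt m) := Equiv.swap (.inl ⟨i, Nat.lt_of_succ_lt h⟩) (.inl ⟨i + 1, h⟩)
    have hs : s * s = 1 := Equiv.swap_mul_self _ _
    constructor
    · calc s * f.1 * s * (s * f.1 * s) = s * f.1 * (s * s) * f.1 * s := by simp only [mul_assoc]
        _ = 1 := by rw [hs, mul_one, mul_assoc s, f.2.1, mul_one, hs]
    · intro a ha
      apply f.2.2 (s a)
      have h1 := congrArg s ha
      rw [Equiv.Perm.mul_apply, Equiv.Perm.mul_apply, ← Equiv.Perm.mul_apply s s, hs] at h1
      exact h1⟩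

/-- the action of a virtual letter -/
def Vm (K : Type*) [CommRing K] (i : ℕ) : Module.End K (Mt m → K) :=
  if h : i + 1 < m then
    { toFun := fun g f => g (cj i h f)
      map_add' := fun _ _ => rfl
      map_smul' := fun _ _ => rfl }
  else 1

theorem gm_virt (hm : 0 < m) (a : Kˣ) (O : Outer m) (i : ℕ) (h : i + 1 < m) :
    gm a (virt O ⟨i, by omega⟩) = Vm K i (gm a O) := by
  funext f
  unfold Vm
  rw [dif_pos h]
  show spec a (fill (virt O ⟨i, by omega⟩) f).bracket = spec a (fill O (cj i h f)).bracket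
  congr 1
  apply ev_inj
  intro N hN
  have hN0 : (N : ℂ) ≠ 0 := by rw [Nat.cast_ne_zero]; omega
  apply mul_left_cancel₀ hN0
  have e1 := ev_fill hm (virt O ⟨i, by omega⟩) f N hN
  have e2 := ev_fill hm O (cj i h f) N hN
  refine e1.trans (Eq.trans ?_ e2.symm)
  unfold Zg
  refine Finset.sum_congr rfl fun col _ => ?_
  congr 1
  apply ind_congr
  set s : Equiv.Perm (Pt m) := Equiv.swap (.inl ⟨i, Nat.lt_of_succ_lt h⟩) (.inl ⟨i + 1, h⟩) with hs
  have hss : ∀ b, s (s b) = b := fun b => Equiv.swap_apply_self _ _ _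
  have h0 : ∀ b : Pt m, Sum.elim (col ∘ (virt O ⟨i, by omega⟩).lower)
      (col ∘ (virt O ⟨i, by omega⟩).upper) b = Sum.elim (col ∘ O.lower) (col ∘ O.upper) (s b) := by
    rintro (b | b)
    · rw [hs, Sum.inl_injective.swap_apply]
      rfl
    · rw [hs, Equiv.swap_apply_of_ne_of_ne (by simp) (by simp)]
      rfl
  have h1 : ∀ b, (cj i h f).1 b = s (f.1 (s b)) := fun b => rfl
  constructor
  · intro H b
    have h2 := H (s b)
    rw [h0, h0, hss] at h2
    rw [h1]
    exact h2
  · intro H b
    have h2 := H (s b)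
    rw [h1, hss] at h2
    rw [h0, h0]
    exact h2

/-- the action of a word with virtual letters -/
noncomputable def XU (a : Kˣ) : VWord → Module.End K (Mt m → K)
  | [] => 1
  | (.inl x :: w) => XU a w * Lm a x.1 x.2
  | (.inr i :: w) => XU a w * Vm K i

theorem gm_drawG (hm : 0 < m) (a : Kˣ) (w : VWord) : ∀ (O : Outer m),
    gm a (drawG O w) = XU a w (gm a O) := by
  induction w with
  | nil => intro O; rfl
  | cons x w ih =>
    intro O
    have h1 : drawG O (x :: w) = drawG (pushG O x) w := rfl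
    rw [h1, ih]
    rcases x with x | i
    · show XU a w (gm a (O.push x.1 x.2)) = _
      rw [gm_push hm]
      rfl
    · by_cases h : i + 1 < m
      · have h2 : pushG O (.inr i) = virt O ⟨i, by omega⟩ := dif_pos h
        rw [h2, gm_virt hm a O i h]
        rfl
      · have h2 : pushG O (.inr i) = O := dif_neg h
        have h3 : Vm (m := m) K i = 1 := dif_neg h
        rw [h2, XU, h3, mul_one]

/-! ### states -/

/-- effect of a letter on orientation pattern and writhe -/
def pg (m : ℕ) : (Bool × ℕ) ⊕ ℕ → St m → St m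
  | .inl x, s => pf m x s
  | .inr i, s => if h : i + 1 < m then (s.1 ∘ swp i h, s.2) else s

/-- the words -/
def QG (m : ℕ) : VWord → St m → St m
  | [], s => s
  | (x :: w), s => QG m w (pg m x s)

theorem stt_pushG (O : Outer m) (x : (Bool × ℕ) ⊕ ℕ) : stt (pushG O x) = pg m x (stt O) := by
  rcases x with x | i
  · exact stt_push O x
  · by_cases h : i + 1 < m
    · have h2 : pushG O (.inr i) = virt O ⟨i, by omega⟩ := dif_pos h
      have h3 : pg m (.inr i) (stt O) = ((stt O).1 ∘ swp i h, (stt O).2) := dif_pos h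
      rw [h2, h3]
      rfl
    · have h2 : pushG O (.inr i) = O := dif_neg h
      have h3 : pg m (.inr i) (stt O) = stt O := dif_neg h
      rw [h2, h3]

theorem stt_drawG (w : VWord) : ∀ (O : Outer m), stt (drawG O w) = QG m w (stt O) := by
  induction w with
  | nil => intro O; rfl
  | cons x w ih =>
    intro O
    have h1 : drawG O (x :: w) = drawG (pushG O x) w := rfl
    rw [h1, ih, stt_pushG, QG]

theorem QG_shift (w : VWord) : ∀ (s : St m) (c : ℤ),
    QG m w (s.1, s.2 + c) = ((QG m w s).1, (QG m w s).2 + c) := by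
  induction w with
  | nil => intro s c; rfl
  | cons x w ih =>
    intro s c
    have h1 : pg m x (s.1, s.2 + c) = ((pg m x s).1, (pg m x s).2 + c) := by
      rcases x with x | i
      · show pf m x _ = ((pf m x s).1, (pf m x s).2 + c)
        by_cases h : x.2 + 1 < m
        · rw [pf_pos x s h, pf_pos x _ h]
          apply Prod.ext
          · rfl
          · show s.2 + c + _ = s.2 + _ + c
            ring
        · rw [pf_neg x s h, pf_neg x _ h]
      · by_cases h : i + 1 < m
        · have h2 : ∀ s : St m, pg m (.inr i) s = (s.1 ∘ swp i h, s.2) := fun s => dif_pos h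
          rw [h2, h2]
        · have h2 : ∀ s : St m, pg m (.inr i) s = s := fun s => dif_neg h
          rw [h2, h2]
    rw [QG, h1, ih]
    rfl

/-! ### families -/

theorem drawG_append (O : Outer m) (u v : VWord) : drawG O (u ++ v) = drawG (drawG O u) v :=
  List.foldl_append

theorem draw_eq (w : Word) : ∀ (O : Outer m), draw O w = drawG O (w.map Sum.inl) := by
  induction w with
  | nil => intro O; rfl
  | cons x w ih =>
    intro O
    exact ih _

theorem familyV_word (m : ℕ) : ∀ (k : ℕ) (w : Fin k → Word) (u : Fin k → VWord) (n : Fin k → ℤ),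
    ∃ x : VWord, ∀ O : Outer m, familyV O w u n = drawG O x
  | 0, _, _, _ => ⟨[], fun _ => rfl⟩
  | k + 1, w, u, n => by
    obtain ⟨x, hx⟩ := familyV_word m k (Fin.tail w) (Fin.tail u) (Fin.tail n)
    obtain ⟨y, hy⟩ := power_word m (w 0) (n 0)
    refine ⟨y.map Sum.inl ++ (u 0 ++ x), fun O => ?_⟩
    rw [familyV, hx, hy, drawG_append, drawG_append, draw_eq]

theorem familyV_update (m : ℕ) : ∀ (k : ℕ) (w : Fin k → Word) (u : Fin k → VWord)
    (n : Fin k → ℤ) (j : Fin k) (O : Outer m), ∃ (O' : Outer m) (x : VWord), ∀ z : ℤ,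
      familyV O w u (Function.update n j z) = drawG (power O' (w j) z) x
  | 0, _, _, _, j, _ => j.elim0
  | k + 1, w, u, n, j, O => by
    refine Fin.cases ?_ (fun j => ?_) j
    · obtain ⟨x, hx⟩ := familyV_word m k (Fin.tail w) (Fin.tail u) (Fin.tail n)
      refine ⟨O, u 0 ++ x, fun z => ?_⟩
      rw [familyV, Fin.tail_update_zero, Function.update_self, hx, drawG_append]
    · obtain ⟨O', x, h⟩ := familyV_update m k (Fin.tail w) (Fin.tail u) (Fin.tail n) j
        (drawG (power O (w 0) (n 0)) (u 0))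
      refine ⟨O', x, fun z => ?_⟩
      rw [familyV, Fin.tail_update_succ, Function.update_of_ne (Fin.succ_ne_zero j).symm, h]
      rfl

/-! ### transfer of the annihilating polynomial -/

theorem Lm_PP (a : Kˣ) (b : Bool) (i : ℕ) : PP (m := m) (dd a) (Lm a b i) (Q99.SML2.Lf a b i) := by
  by_cases h : i + 1 < m
  · rw [Lm_pos a b i h, Q99.SML2.Lf_pos a b i h]
    exact ((PP.one _).smul _).add ((PP.Em _ i h).smul _)
  · unfold Lm Q99.SML2.Lf
    rw [dif_neg h, dif_neg h]
    exact PP.one _

theorem WU_PP (a : Kˣ) (w : Word) : PP (m := m) (dd a)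
    (WUm a w : (Module.End K (Mt m → K))ˣ).1 (Q99.SML2.WU a w : (Module.End K (NX m → K))ˣ).1 := by
  induction w with
  | nil => exact PP.one _
  | cons x w ih => exact ih.mul (Lm_PP a x.1 x.2)

end Q99.SML3
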